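import Pool.Agent.Helper81x.QP.MainC

/-!
# Online matrix-vector multiplication over `ZMod 2`: memory of constant depth and much side information

An algorithm may rewrite its whole memory between two vectors, free of charge and with full
knowledge of the matrix, the coins and the earlier vectors; only probes of memory cells of `w` bits
count. The programs (quantum programs, or classical adaptive ones) know the earlier vectors and the
earlier answers without probing, and besides `e` arbitrary bits of side information about the
matrix (also rewritten after each vector). For given coins, earlier vectors and side information,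
all the bits of the memory are computed by a circuit with at most `2 ^ ℓ` nodes, `n ≤ 2 ^ ℓ`, and of
depth at most `d`, with AND and OR gates of unbounded fan-in, negations, and arbitrary gates of
fan-in at most `m`, from the `n * n` bits of the matrix: the entries, or other coordinates, `n`
linearly independent linear forms of every row of `G * M`, which may depend on the coins and the
earlier vectors. So the circuit may also contain `e` arbitrary gates (say parities, majorities) of
unbounded fan-in, which need not be the same for all vectors.

Let `L = 384 * m * ℓ * 2 ^ d` and `16 * (e + n) * L ^ (d + 1) ≤ n ^ 2`. If each answer is right with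
probability at least `γ ≥ 2 ^ (- n / (40 * L ^ d))` on a random input, the average number of
probes is at least `γ * n ^ 4 / (1024 * L ^ (2 * d + 1) * (e + n) * w)`. For circuits of constant
depth with `2 ^ polylog n` nodes this is `n ^ 3` up to a polylogarithmic factor as long as `e` is at
most `n` times such a factor, and `n ^ (3 - δ - o(1))` for `e = n ^ (1 + δ)`, `δ < 1`. In the
starting file `ConstantDepthMemory` (classical programs) the bound gets worse by the factor
`e ^ (2 * d + 2)`, so it is void for `e ≥ n ^ (1 / (d + 1))`.

The definitions are in `Pool/Agent/Helper81x/QP/Model.lean` (`QProg`, `Alg`, `QRight`, `QProbes`,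
`CRight`, `CProbes`), `Pool/Agent/Helper81x/QP/ModelC.lean` (`Circ`, `CircuitLE`),
`Pool/Agent/TH163/AC2/Model.lean` (`coord`) and `Pool/Agent/H699R2/OMV/Model.lean` (`Prog`,
`before`, `IsProb`, `avg`).

Proof. By the multi-switching lemma (`Pool/Agent/Y603/MS/Multi2.lean`), after fixing all but
`n / (4 * L ^ d)` bits of each row at random, for ALL values of the side information at once, there
are decision trees of depth `d * (e + n)` at whose leaves all nodes of the circuit have decision
trees of depth `ℓ`. For `t` vectors at once the probability of each list of `t` outputs is then a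
polynomial of degree `d * (e + n) + 2 * t * T * w * ℓ`, which is orthogonal to the products of
bits of `M * v_1, ..., M * v_t` that involve more than a quarter of the rows, also if the
earlier products are given. So `t` answers are right at once with probability about
`2 ^ (- 3 t n / 4)` at most, for all values of the side information together if `t` is about
`4 (e + n) / n`.
-/

set_option autoImplicit false

namespace Pool.Agent.Results.MP_0f1f76_lc.DepthAndSideInformation

open Pool.Agent.Helper81x.QP
open Pool.Agent.H699R2.OMV (Prog Vec Mat IsProb)

theorem result (n m ℓ d w e L : ℕ) (hn : 1 ≤ n) (hm : 1 ≤ m) (hℓ : 1 ≤ ℓ) (hw : 1 ≤ w)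
    (hnℓ : n ≤ 2 ^ ℓ) (hL : L = 384 * (m * ℓ) * 2 ^ d) (he : 16 * (e + n) * L ^ (d + 1) ≤ n ^ 2)
    (Ω A : Type) [Fintype Ω] (μ : Ω → ℝ) (hμ : IsProb μ) (γ : ℝ)
    (hγ : 1 / 2 ^ (n / (40 * L ^ d)) ≤ γ) :
    (∀ alg : Alg n Ω A w e (QProg A w (Vec n)), alg.CircuitLE m (2 ^ ℓ) d → alg.QRight μ γ →
      γ * (n : ℝ) ^ 4 ≤ 1024 * (L : ℝ) ^ (2 * d + 1) * (e + n) * w * alg.QProbes μ) ∧
    (∀ alg : Alg n Ω A w e (Prog A (Fin w → Bool) (Vec n)), alg.CircuitLE m (2 ^ ℓ) d →
      alg.CRight μ γ →
      γ * (n : ℝ) ^ 4 ≤ 512 * (L : ℝ) ^ (2 * d + 1) * (e + n) * w * alg.CProbes μ) := by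
  subst hL
  have P : Par n e m ℓ d := ⟨hm, hℓ, hnℓ, he, hn⟩
  exact ⟨fun alg hC hR => quantumC P le_rfl μ hμ hγ alg hC hR,
    fun alg hC hR => classicalC P le_rfl hw μ hμ hγ alg hC hR⟩

end Pool.Agent.Results.MP_0f1f76_lc.DepthAndSideInformation
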