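import Pool.Agent.Helper81x.QP.Main

/-!
# Online matrix-vector multiplication over `ZMod 2`: quantum programs and approximate degree

An algorithm may rewrite its whole memory between two vectors, free of charge and with full
knowledge of the matrix, the coins and the earlier vectors; only probes of memory cells of `w` bits
count. The programs know the earlier vectors and the earlier answers without probing, and besides
`e` arbitrary bits of side information about the matrix (also rewritten after each vector). For
given coins and earlier vectors, and given side information, every bit of the memory is approximated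
with an error at most `ε` by a polynomial of degree at most `d` with real coefficients and values
between `0` and `1`, in the `n * n` bits of the matrix: the entries, or other coordinates, `n`
linearly independent linear forms of every row of `G * M`, which may depend on the coins and the
earlier vectors. Such are the bits which are computed with error `ε` by a quantum algorithm with at
most `d / 2` queries to these bits, in particular decision trees of depth `d`.

(1) Quantum programs: if each answer is right with probability at least `γ ≥ 2 ^ (-n / 10)` on a
random input and `ε ^ 2 * n ^ 4 ≤ γ`, the average number of probes is at least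
`γ * n ^ 4 / (7000 * (e + n) * d * w)`. (2) Classical adaptive programs: the same with `3500` in
place of `7000` for `ε ≤ 1 / n ^ 2`. For `e ≤ n` this is optimal up to a constant factor (there is an
algorithm without errors with `n * (n / w + 1) * (n / d + 1)` probes and exact degree `d`, the
starting file `DegreeMemory`).

The definitions are in `Pool/Agent/Helper81x/QP/Model.lean` (`QProg`, `Alg`, `ApproxLE`, `QRight`,
`QProbes`, `CRight`, `CProbes`), `Pool/Agent/TH163/AC2/Model.lean` (`coord`) and
`Pool/Agent/H699R2/OMV/Model.lean` (`Prog`, `before`, `IsProb`, `avg`).

Proof. The probability of each output is (up to the error `ε`) a polynomial of degree at most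
`2 * T * w * d` in the bits of the matrix. The bits of `M * v_1, ..., M * v_t` are parities of
many bits of the rows, also modulo the earlier vectors, so a polynomial of small degree is
orthogonal to all products of them which involve more than a quarter of the rows, for given earlier
products. So `t` answers are right at once with probability about `2 ^ (- 3 t n / 4)`
at most, and this holds for all `2 ^ e` values of the side information together if `t` is about
`4 (e + n) / n`.
-/

set_option autoImplicit false

namespace Pool.Agent.Results.MP_0f1f76_lc.QuantumPrograms

open Pool.Agent.Helper81x.QP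
open Pool.Agent.H699R2.OMV (Prog Vec Mat IsProb)

theorem result (n d w e : ℕ) (hn : 128 ≤ n) (hd : 1 ≤ d) (hw : 1 ≤ w) (he : 64 * e ≤ n ^ 2)
    (Ω A : Type) [Fintype Ω] (μ : Ω → ℝ) (hμ : IsProb μ) (γ ε : ℝ)
    (hγ : 1 / 2 ^ (n / 10) ≤ γ) (hε : 0 ≤ ε) :
    (ε ^ 2 * n ^ 4 ≤ γ → ∀ alg : Alg n Ω A w e (QProg A w (Vec n)), alg.ApproxLE d ε →
      alg.QRight μ γ → γ * (n : ℝ) ^ 4 ≤ 7000 * (e + n) * (d * w) * alg.QProbes μ) ∧
    (ε * n ^ 2 ≤ 1 → ∀ alg : Alg n Ω A w e (Prog A (Fin w → Bool) (Vec n)), alg.ApproxLE d ε →
      alg.CRight μ γ → γ * (n : ℝ) ^ 4 ≤ 3500 * (e + n) * (d * w) * alg.CProbes μ) :=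
  ⟨fun hε2 alg ha hR => quantum hn hd he μ hμ hγ hε hε2 alg ha hR,
    fun hε2 alg ha hR => classical' hn hd hw he μ hμ hγ hε hε2 alg ha hR⟩

end Pool.Agent.Results.MP_0f1f76_lc.QuantumPrograms
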