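import Pool.Agent.H85Q.Upper

/-!
# OMV over the field with two elements: time times memory for quantum algorithms

We consider quantum algorithms (in particular randomised classical algorithms) which get an
`n × n` matrix `M` and `n` vectors over the field with two elements and give the products of `M` with
the vectors, one after the other. Between the vectors the algorithm has a memory of `S` qubits, that
is, a finite-dimensional Hilbert space with a basis `D`, `|D| ≤ 2 ^ S` (`Alg`). Its first state may
depend on `M` in an arbitrary way (`init`), so any preprocessing of the matrix is allowed. In one
round (`Round`) the memory is embedded in a workspace of any size, queries to the matrix are made,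
and a measurement gives the answer and the new state of the memory. The following is free of charge:
all vectors, also the later ones, all answers given before, random bits, all computations and the
workspace in a round. So the rounds may depend in any way on the vectors, on the answers given before
and on random bits. Only the queries are counted.

A query (`IsQuery n d`) is a unitary map of the workspace which depends on `M`, all of whose matrix
entries are functions of `M` of degree at most `d`, that is, linear combinations of functions
`(-1) ^ (sum of at most d entries of M)` (`DegLE`). For instance, one may read, in superposition, a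
word of any length all bits of which depend on the same `d` entries of the matrix (part 2), and these
words may be precomputed, and changed between the vectors, free of charge.

1. If all answers are right with probability `γ ≥ 2 ^ (-n / 4)`, in the mean over all matrices and
   all vectors, then the mean number of the queries is at least `γ n ^ 4 / (7680 d (S + n))`, for
   `S ≤ n ^ 2 / 64`.
2. Reading a word which depends on at most `d` entries is a query.
3. For `S = p n` there is an algorithm which is always right and makes at most
   `(n / p + 1) (n ^ 2 / d + 1)` queries.

So the least number of queries is of the exact order `n ^ 4 / (d S)`, for a fixed `γ`, `d ≤ n ^ 2`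
and `n ≤ S ≤ n ^ 2 / 64`; it is `n ^ (3 - o(1))` if the memory besides the matrix has
`n ^ (1 + o(1))` qubits and `d ≤ n ^ o(1)`.

Proof of (1). The vectors are cut into blocks of `2 m` vectors, `m = ⌊S / n⌋ + 3`. For a fixed state
of the memory at the beginning of a block the probability of given answers in the block is a function
of `M` of degree at most twice `d` times the number `t` of the queries (`deg_tot`), and the sum over
all states of a basis of the memory loses a factor `2 ^ S` only (`prob_le_tot`). Even if the answers
to the earlier vectors are given, this function is orthogonal to the characters of the differences of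
the answers in the block, except for few of them, because the vectors span a code with minimum
distance at least `n / 16`; so for `t ≤ n ^ 2 / (64 d)` the answers in the block are right with
probability at most `2 ^ (S + n - m n)` only (`block_bound`).
-/

set_option autoImplicit false

namespace Pool.Agent.Results.MP_0f1f76_lc.QuantumTimeMemory

open Pool.Agent.H85Q

/-- (1) the lower bound; (2) reading words is a query; (3) the upper bound -/
theorem result :
    (∀ n d S : ℕ, 64 ≤ n → 1 ≤ d → 64 * S ≤ n ^ 2 →
      ∀ (D : Type) [Fintype D] [DecidableEq D], Fintype.card D ≤ 2 ^ S →
      ∀ (Ω : Type) [Fintype Ω] (μ : Ω → ℝ), (∀ ω, 0 ≤ μ ω) → ∑ ω, μ ω = 1 →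
      ∀ (A : Ω → Alg n d D) (γ : ℝ), (2 : ℝ) ^ (-(n : ℝ) / 4) ≤ γ →
        γ ≤ avg (fun M v => ∑ ω, μ ω * (A ω).success M v) →
        γ * n ^ 4 ≤
          7680 * d * (S + n) * avg (fun M v => ∑ ω, μ ω * ((A ω).queries M v : ℝ))) ∧
    (∀ (n d : ℕ) (A K X : Type) [Fintype A] [DecidableEq A] [Fintype K] [DecidableEq K]
      [AddGroup K] [Fintype X] [DecidableEq X] (c : A → Mat n → K),
      (∀ a, ∃ R : Finset (Fin n × Fin n), R.card ≤ d ∧
        ∀ M N : Mat n, (∀ p ∈ R, M p.1 p.2 = N p.1 p.2) → c a M = c a N) →
      IsQuery n d fun M => permMat (readPerm (X := X) c M)) ∧
    (∀ n d p : ℕ, 1 ≤ d → 1 ≤ p → ∃ A : Alg n d (Mem n p),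
      ∀ M v, A.success M v = 1 ∧ A.queries M v ≤ (n / p + 1) * (n * n / d + 1)) :=
  ⟨fun _ _ _ hn hd hS _ _ _ hD _ _ μ hμ0 hμ1 A _ hγ hs =>
      lower hn hd hS hD μ hμ0 hμ1 A hγ hs,
    fun _ _ _ _ _ _ _ _ _ _ _ _ c h => read_query c h,
    fun _ _ _ hd hp => upper hd hp⟩

end Pool.Agent.Results.MP_0f1f76_lc.QuantumTimeMemory
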