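import Pool.Agent.H5OM.Upper

/-!
# Online matrix-vector multiplication by circuits which are invariant under cyclic shifts

A matrix `M` and vectors arrive one after the other, and each product must be computed before the next vector arrives.
Everything that can be computed from `M` and from the earlier vectors is free of charge. Only the other gates of the
circuit which processes the current vector are counted. They compute arbitrary functions of the multiset of the
labelled values on their wires, of any fan-in, and the values may be elements of any set (for instance, a value can be
a whole matrix). The circuits are invariant under the cyclic shifts of `p` of the rows and the cyclic shifts of `p` of the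
columns, `p` a prime number. We show that then each vector costs `(p - 1) ^ 2` gates, and `(p - 1) (γ p - 1)` gates
on average for randomised circuits which are right with probability `γ`. For `n` rows and columns, `n ^ 2 + 2 n` gates
are enough, even for circuits that are invariant under all permutations of the rows and of the columns. So for prime
`n` the trivial algorithm is optimal up to terms of lower order, and the total cost for `n` vectors is `n ^ 3 + O (n ^ 2)`
(`(2 / 3) n ^ 3 + O (n ^ 2)` at least for error probability `1 / 3`), for matrices over any commutative semiring.

The proof. The group of the shifts has `p ^ 2` elements. If a circuit has fewer than `p s` gates which are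
not free then for at least `p - s` of the subgroups `S = {(x, t x)}`, `t ≠ 0`, no such gate has its stabiliser in `S`.
Let `M` be a permutation matrix which is fixed by `S`. The shifts of `M` by `S` and by the stabiliser of any gate
that is not free are all cyclic shifts of `M`. It follows that the values of these gates do not change if `M` is
shifted and the vector is not. But the product changes.
-/

set_option autoImplicit false

namespace Pool.Agent.Results.MP_0f1f76_lc.ShiftInvariantCircuits

open Pool.Agent.H5OM

universe u

open Classical in
/-- **Theorem.** Let `R` be a commutative semiring, for instance the field with two elements or the Boolean semiring. The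
rows and the columns of the matrices are indexed by `X` and `Y`, and `m` is the number of the earlier vectors.
(1) For all finite `X`, `Y` there is a circuit which is always right and is invariant under all permutations of the
rows and the columns, and it has `|X| |Y| + |X| + |Y|` gates that are not computed from the known data.
(2) Let `e`, `f` be embeddings of the cyclic group of prime order `p` into `X` and `Y`, let `R` be nontrivial, and let
`C ω` be random circuits (`ω` has the probability `w ω`) which are invariant under the cyclic shifts of the rows `e x` and
of the columns `f y`. Suppose that for every matrix, all earlier vectors and every vector the answer is right with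
probability at least `γ`. Then the expected number of the gates that are not computed from the known data is at
least `(p - 1) (γ p - 1)`. -/
theorem result :
    (∀ (R X Y : Type) [CommSemiring R] [Fintype X] [Fintype Y] (m : ℕ), ∃ C : Circuit X Y R m R,
      (∀ σ τ, C.Invariant σ τ) ∧ (∀ k v, C.Right id id k v) ∧ C.online.Finite ∧
      C.online.ncard = Fintype.card X * Fintype.card Y + Fintype.card X + Fintype.card Y) ∧
    (∀ (R X Y : Type) [CommSemiring R] [Nontrivial R] [Fintype Y] (p : ℕ), p.Prime →
      ∀ (e : ZMod p ↪ X) (f : ZMod p ↪ Y) (m : ℕ) (D : Type u) (Ω : Type) [Fintype Ω] (w : Ω → ℝ),
      (∀ ω, 0 ≤ w ω) → ∑ ω, w ω = 1 → ∀ (C : Ω → Circuit X Y R m D) (enc : R → D) (dec : D → R) (γ : ℝ),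
      (∀ ω, (C ω).online.Finite) → (∀ ω a b, (C ω).Invariant (cyc e a) (cyc f b)) →
      (∀ k v, γ ≤ ∑ ω, if (C ω).Right enc dec k v then w ω else 0) →
      ((p : ℝ) - 1) * (γ * p - 1) ≤ ∑ ω, w ω * (C ω).online.ncard) := by
  refine ⟨?_, ?_⟩
  · intro R X Y _ _ _ m
    exact ⟨naive X Y R m, naive_invariant m, naive_right m, (naive_online m).1, (naive_online m).2⟩
  · intro R X Y _ _ _ p hp e f m D Ω _ w hw hw1 C enc dec γ hfin hC hR
    have : Fact p.Prime := ⟨hp⟩
    refine lower w hw hw1 C enc dec γ hfin hC fun k v => ?_
    convert hR k v

end Pool.Agent.Results.MP_0f1f76_lc.ShiftInvariantCircuits
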